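import Pool.Agent.R820.GH3H

namespace Pool.Agent.Results.MP_c3dba2_gt.BothFail

open Pool.Agent.R820.GH3 Set

/-- The implication (C) ⇒ (H) holds, because (C) fails. Moreover (H) fails too, and the
implication fails spacewise: there are three compact metric spaces for which an `R` with all
projections optimal exists, but no common ambient space realises the three Gromov-Hausdorff
distances. -/
theorem result :
    (StatementC → StatementH) ∧ ¬ StatementC ∧ ¬ StatementH ∧
    ∃ (X : Fin 3 → Type) (_ : ∀ i, MetricSpace (X i)) (_ : ∀ i, CompactSpace (X i))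
      (_ : ∀ i, Nonempty (X i)),
      (∃ R : Set (∀ i, X i), ∀ i j : Fin 3, IsOptimal (e i j R)) ∧
      ¬ ∃ (Z : Type) (_ : MetricSpace Z) (_ : CompactSpace Z) (φ : ∀ i, X i → Z),
        (∀ i, Isometry (φ i)) ∧
        ∀ i j : Fin 3, Metric.hausdorffDist (range (φ i)) (range (φ j)) = dGH (X i) (X j) := by
  have hC : ¬ StatementC := by
    intro h
    obtain ⟨R, hR⟩ := h Sp
    exact key R (hR 0 1) (hR 0 2) (hR 1 2)
  have hZ : ¬ ∃ (Z : Type) (_ : MetricSpace Z) (_ : CompactSpace Z) (φ : ∀ i, Two.Sp i → Z),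
      (∀ i, Isometry (φ i)) ∧
      ∀ i j : Fin 3, Metric.hausdorffDist (range (φ i)) (range (φ j)) =
        dGH (Two.Sp i) (Two.Sp j) := by
    rintro ⟨Z, _, _, φ, hφ, h⟩
    exact Two.no_ambient φ hφ h
  refine ⟨fun h => absurd h hC, hC, fun h => hZ (h Two.Sp), Two.Sp, inferInstance, inferInstance,
    inferInstance, ⟨Two.R, Two.isOptimal_e⟩, hZ⟩

end Pool.Agent.Results.MP_c3dba2_gt.BothFail
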